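import Mathlib.Analysis.SpecialFunctions.Trigonometric.DerivHyp
import Mathlib.Analysis.SpecialFunctions.Log.Basic
import Mathlib.Analysis.Complex.ExponentialBounds
import Mathlib.Analysis.SpecificLimits.Basic

/-! From the occupancy bound to the partition function: descent in the fugacity. -/

open Filter Topology

namespace Pool.Agent.MP_081e4c_co.OC

/-- supersolutions of the recursion from `a` on -/
def Sup (w : ℝ) (a : ℕ) (T : ℕ → ℝ) : Prop :=
  Antitone T ∧ (∀ b, 0 ≤ T b) ∧ ∀ b : ℕ, a ≤ b → 1 + T (b + 2) ≤ (1 + w * b) * T b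

/-- what is used about the partition function -/
structure Occ (Z : ℝ → ℝ) (n : ℕ) : Prop where
  pos : ∀ w, 0 ≤ w → 0 ≤ Z w
  step : ∀ w w' α T, 0 < w' → w' ≤ w → Sup w 0 T →
    w * (T 0 + T 1) ≤ α * (2 * (1 + w * (T 0 + T 1))) →
      Z w ≤ Z w' * Real.exp (n * (α * Real.log (w / w')))
  lim : ∃ K, ∀ w, 0 ≤ w → w ≤ 1 → Z w ≤ 1 + K * w

/-- evaluate `e` before going on -/
noncomputable def force (e : ℕ) (k : ℕ → ℕ) : ℕ := Nat.rec (k 0) (fun z _ => k (Nat.succ z)) e

theorem force_eq (e : ℕ) (k : ℕ → ℕ) : force e k = k e := by cases e <;> rfl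

noncomputable def go (N2 jj S a : ℕ) : ℕ → ℕ → ℕ :=
  Nat.rec (fun x y => Nat.add x y) (fun a ih x y =>
    force (Nat.div (Nat.mul (Nat.add S y) N2) (Nat.add N2 (Nat.mul jj a))) fun v =>
      cond (Nat.ble x v) (ih (Nat.succ v) x) (ih x x)) a

theorem go_succ (N2 jj S a x y : ℕ) : go N2 jj S (a + 1) x y =
    go N2 jj S a (max x ((S + y) * N2 / (N2 + jj * a) + 1)) x := by
  have e : go N2 jj S (a + 1) x y = force ((S + y) * N2 / (N2 + jj * a)) fun v =>
      cond (Nat.ble x v) (go N2 jj S a (v + 1) x) (go N2 jj S a x x) := rfl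
  rw [e, force_eq]
  cases h : Nat.ble x ((S + y) * N2 / (N2 + jj * a))
  · have h1 : ¬ x ≤ (S + y) * N2 / (N2 + jj * a) := fun c => by
      rw [Nat.ble_eq_true_of_le c] at h
      exact Bool.noConfusion h
    rw [max_eq_left (by omega)]
    rfl
  · have h1 := Nat.le_of_ble_eq_true h
    rw [max_eq_right (by omega)]
    rfl

theorem go_spec {N2 jj S : ℕ} (hN : 0 < N2) (hS : 0 < S) : ∀ (a x y : ℕ) (T : ℕ → ℝ),
    Sup (jj / N2) a T → T a = x / S → T (a + 1) = y / S →
      ∃ T', Sup (jj / N2) 0 T' ∧ T' 0 + T' 1 = (go N2 jj S a x y : ℝ) / S := by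
  intro a
  have hS' : (0 : ℝ) < S := by exact_mod_cast hS
  have hN' : (0 : ℝ) < N2 := by exact_mod_cast hN
  induction a with
  | zero =>
    intro x y T h h1 h2
    refine ⟨T, h, ?_⟩
    have e : go N2 jj S 0 x y = x + y := rfl
    rw [h1, ← zero_add 1, h2, e, Nat.cast_add, add_div]
  | succ a ih =>
    intro x y T h h1 h2
    obtain ⟨z, hz⟩ : ∃ z, max x ((S + y) * N2 / (N2 + jj * a) + 1) = z + 1 :=
      ⟨_, (Nat.succ_pred_eq_of_pos (lt_max_of_lt_right (Nat.succ_pos _))).symm⟩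
    have e : go N2 jj S (a + 1) x y = go N2 jj S a (z + 1) x := by rw [go_succ, hz]
    have z1 : (x : ℝ) / S ≤ ((z + 1 : ℕ) : ℝ) / S := by
      have : x ≤ z + 1 := hz ▸ le_max_left _ _
      exact div_le_div_of_nonneg_right (by exact_mod_cast this) hS'.le
    have z2 : (S + y) * N2 ≤ (N2 + jj * a) * (z + 1) := by
      have a1 : (S + y) * N2 / (N2 + jj * a) + 1 ≤ z + 1 := hz ▸ le_max_right _ _
      have a2 := Nat.lt_mul_div_succ ((S + y) * N2) (show 0 < N2 + jj * a by omega)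
      exact a2.le.trans (Nat.mul_le_mul_left _ a1)
    rw [e]
    refine ih (z + 1) x (fun b => if b ≤ a then ((z + 1 : ℕ) : ℝ) / S else T b)
      ⟨fun b c hbc => ?_, fun b => ?_, fun b hb => ?_⟩ (if_pos le_rfl) ?_
    · by_cases hc : c ≤ a
      · simp only [if_pos hc, if_pos (hbc.trans hc), le_refl]
      · by_cases hb : b ≤ a
        · simp only [if_neg hc, if_pos hb]
          exact (h.1 (show a + 1 ≤ c by omega)).trans (h1.le.trans z1)
        · simp only [if_neg hc, if_neg hb]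
          exact h.1 hbc
    · by_cases hb : b ≤ a
      · simp only [if_pos hb]
        positivity
      · simp only [if_neg hb]
        exact h.2.1 b
    · rcases hb.eq_or_lt with rfl | hb'
      · simp only [if_pos (le_refl a), if_neg (show ¬ a + 2 ≤ a by omega)]
        rw [h2]
        have z3 : ((S : ℝ) + y) * N2 ≤ (N2 + jj * a) * ((z + 1 : ℕ) : ℝ) := by exact_mod_cast z2
        have e1 : 1 + (y : ℝ) / S = ((S : ℝ) + y) * N2 / (N2 * S) := by field_simp
        have e2 : (1 + (jj : ℝ) / N2 * a) * (((z + 1 : ℕ) : ℝ) / S) =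
            (N2 + jj * a) * ((z + 1 : ℕ) : ℝ) / (N2 * S) := by field_simp
        rw [e1, e2]
        exact div_le_div_of_nonneg_right z3 (by positivity)
      · simp only [if_neg (show ¬ b ≤ a by omega), if_neg (show ¬ b + 2 ≤ a by omega)]
        exact h.2.2 b hb'
    · simp only [if_neg (show ¬ a + 1 ≤ a by omega)]
      exact h1

/-- the table value `S (T 0 + T 1)` at the fugacity `(j / 2000) ^ 2` -/
noncomputable def tab (j : ℕ) : ℕ :=
  force (j * j) fun jj => force (10000 / j + 2) fun A =>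
    force (4000000000000 / (jj * A) + 1) fun t => go 4000000 jj 1000000 A t t

theorem tab_spec {j : ℕ} (hj : 0 < j) :
    ∃ T, Sup (((j * j : ℕ) : ℝ) / (4000000 : ℕ)) 0 T ∧ T 0 + T 1 = (tab j : ℝ) / (1000000 : ℕ) := by
  rw [tab, force_eq, force_eq, force_eq]
  refine go_spec (by norm_num) (by norm_num) _ _ _
    (fun _ => ((4000000000000 / (j * j * (10000 / j + 2)) + 1 : ℕ) : ℝ) / (1000000 : ℕ))
    ⟨fun _ _ _ => le_rfl, fun _ => by positivity, fun b hb => ?_⟩ rfl rfl
  set t := 4000000000000 / (j * j * (10000 / j + 2)) + 1 with ht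
  have a1 : 4000000000000 ≤ j * j * b * t :=
    (Nat.lt_mul_div_succ _ (by positivity)).le.trans
      (Nat.mul_le_mul_right _ (Nat.mul_le_mul_left _ hb))
  have a2 : (4000000000000 : ℝ) ≤ ((j * j : ℕ) : ℝ) * b * t := by exact_mod_cast a1
  push_cast at a2 ⊢
  nlinarith

def term (i g : ℕ) : ℕ :=
  1000000000 * ((i + 1) * (i + 1) * g) * (2 * i + 1) /
    (2 * (4000000000000 + (i + 1) * (i + 1) * g) * (i * (i + 1))) + 1

noncomputable def tot (i : ℕ) : ℕ → ℕ :=
  Nat.rec (fun acc => acc)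
    (fun i ih acc => force (tab (i + 2)) fun g => force (acc + term (i + 1) g) ih) i

theorem tot_succ (i acc : ℕ) : tot (i + 1) acc = tot i (acc + term (i + 1) (tab (i + 2))) := by
  have e : tot (i + 1) acc =
      force (tab (i + 2)) fun g => force (acc + term (i + 1) g) (tot i) := rfl
  rw [e, force_eq, force_eq]

theorem tot_le : tot 1999 0 ≤ 1048000000 := by decide +kernel

theorem two_log {x : ℝ} (hx : 1 ≤ x) : 2 * Real.log x ≤ x - x⁻¹ := by
  have h := Real.self_le_sinh_iff.2 (Real.log_nonneg hx)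
  rw [Real.sinh_log (by linarith)] at h
  linarith

variable {Z : ℝ → ℝ} {n : ℕ}

theorem grid_step (H : Occ Z n) {i : ℕ} (hi : 0 < i) :
    Z (((i : ℝ) + 1) ^ 2 / 4000000) ≤
      Z ((i : ℝ) ^ 2 / 4000000) * Real.exp (n * ((term i (tab (i + 1)) : ℝ) / 10 ^ 9)) := by
  obtain ⟨T, hT, hY⟩ := tab_spec (Nat.succ_pos i)
  have hi' : (0 : ℝ) < i := by exact_mod_cast hi
  have e : (((i.succ * i.succ : ℕ) : ℝ) / (4000000 : ℕ)) = ((i : ℝ) + 1) ^ 2 / 4000000 := by
    push_cast
    ring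
  rw [e] at hT
  set g : ℕ := tab (i + 1) with hg
  set v : ℝ := ((i : ℝ) + 1) * (i + 1) * g with hv
  have hv0 : 0 ≤ v := by positivity
  have e2 : ((i : ℝ) + 1) ^ 2 / 4000000 * (T 0 + T 1) = v / 4000000000000 := by
    rw [hY, hv]
    push_cast
    ring
  have h1 := H.step _ ((i : ℝ) ^ 2 / 4000000) (v / (2 * (4000000000000 + v))) T (by positivity)
    (by gcongr; linarith) hT (by rw [e2]; apply le_of_eq; field_simp)
  refine h1.trans (mul_le_mul_of_nonneg_left (Real.exp_le_exp.2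
    (mul_le_mul_of_nonneg_left ?_ (Nat.cast_nonneg n))) (H.pos _ (by positivity)))
  have e3 : ((i : ℝ) + 1) ^ 2 / 4000000 / ((i : ℝ) ^ 2 / 4000000) = ((i + 1) / i) ^ 2 := by
    field_simp
  have h2 := two_log (x := ((i : ℝ) + 1) / i) (by rw [le_div_iff₀ hi']; linarith)
  have e4 : ((i : ℝ) + 1) / i - (((i : ℝ) + 1) / i)⁻¹ = (2 * i + 1) / (i * (i + 1)) := by
    field_simp
    ring
  rw [e3, Real.log_pow, Nat.cast_ofNat]
  rw [e4] at h2
  refine (mul_le_mul_of_nonneg_left h2 (by positivity)).trans ?_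
  have h3 := (Nat.lt_mul_div_succ (1000000000 * ((i + 1) * (i + 1) * g) * (2 * i + 1))
    (show 0 < 2 * (4000000000000 + (i + 1) * (i + 1) * g) * (i * (i + 1)) by positivity)).le
  have h4 : (1000000000 : ℝ) * v * (2 * i + 1) ≤
      2 * (4000000000000 + v) * (i * (i + 1)) * (term i g : ℝ) := by
    rw [hv]
    exact_mod_cast h3
  rw [div_mul_div_comm, div_le_div_iff₀ (by positivity) (by positivity)]
  nlinarith

theorem grid (H : Occ Z n) : ∀ (i acc : ℕ), Z (((i : ℝ) + 1) ^ 2 / 4000000) *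
    Real.exp (n * ((acc : ℝ) / 10 ^ 9)) ≤
      Z (1 / 4000000) * Real.exp (n * ((tot i acc : ℝ) / 10 ^ 9)) := by
  intro i
  induction i with
  | zero =>
    intro acc
    have e : tot 0 acc = acc := rfl
    simp [e]
  | succ i ih =>
    intro acc
    rw [tot_succ]
    refine le_trans ?_ (ih _)
    have h1 := grid_step H (Nat.succ_pos i)
    refine (mul_le_mul_of_nonneg_right h1 (Real.exp_pos _).le).trans_eq ?_
    rw [mul_assoc, ← Real.exp_add]
    push_cast
    congr 2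
    ring

theorem crude {q : ℕ} (hq : 0 < q) : Sup (1 / (q : ℝ) ^ 2) 0
    fun a => (q : ℝ) + ((q + 1 - a : ℕ) : ℝ) / 2 := by
  have hq' : (0 : ℝ) < q := by exact_mod_cast hq
  refine ⟨fun a b hab => ?_, fun b => by positivity, fun b _ => ?_⟩
  · have : ((q + 1 - b : ℕ) : ℝ) ≤ ((q + 1 - a : ℕ) : ℝ) := by exact_mod_cast (by omega)
    dsimp only
    linarith
  · dsimp only
    have a0 : (0 : ℝ) ≤ ((q + 1 - b : ℕ) : ℝ) := Nat.cast_nonneg _
    have a1 : 0 ≤ 1 / (q : ℝ) ^ 2 * b := by positivity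
    by_cases h : b + 2 ≤ q + 1
    · have e : ((q + 1 - b : ℕ) : ℝ) = ((q + 1 - (b + 2) : ℕ) : ℝ) + 2 := by
        exact_mod_cast (by omega)
      have := mul_nonneg a1 (show 0 ≤ (q : ℝ) + ((q + 1 - b : ℕ) : ℝ) / 2 by positivity)
      linarith
    · have e : q + 1 - (b + 2) = 0 := by omega
      have a2 : (q : ℝ) ≤ b := by exact_mod_cast (by omega)
      have a3 : 1 ≤ 1 / (q : ℝ) ^ 2 * b * q := by
        rw [one_div, inv_mul_eq_div, div_mul_eq_mul_div, le_div_iff₀ (by positivity)]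
        nlinarith
      have := mul_nonneg a1 a0
      rw [e]
      push_cast
      nlinarith

theorem small_step (H : Occ Z n) {q : ℕ} (hq : 1000 ≤ q) :
    Z (1 / (q : ℝ) ^ 2) ≤ Z (1 / ((2 * q : ℕ) : ℝ) ^ 2) * Real.exp (n * (2.085 / q)) := by
  have hq' : (1000 : ℝ) ≤ q := by exact_mod_cast hq
  have hq0 : (0 : ℝ) < q := by linarith
  have e0 : ((q + 1 - 0 : ℕ) : ℝ) = q + 1 := by simp
  have e1 : ((q + 1 - 1 : ℕ) : ℝ) = q := by simp
  have h1 := H.step _ (1 / ((2 * q : ℕ) : ℝ) ^ 2) (1.501 / q) _ (by positivity)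
    (by push_cast; gcongr; linarith) (crude (by omega : 0 < q)) (by
      rw [e0, e1]
      have a1 : 1 / (q : ℝ) ^ 2 * (q + (q + 1) / 2 + (q + q / 2)) ≤ 1.501 / q * 2 := by
        rw [one_div, inv_mul_eq_div, div_mul_eq_mul_div, div_le_div_iff₀ (by positivity) hq0]
        nlinarith
      have a2 : 0 ≤ 1.501 / (q : ℝ) * (2 * (1 / (q : ℝ) ^ 2 * (q + (q + 1) / 2 + (q + q / 2)))) := by
        positivity
      linarith)
  refine h1.trans (mul_le_mul_of_nonneg_left (Real.exp_le_exp.2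
    (mul_le_mul_of_nonneg_left ?_ (Nat.cast_nonneg n))) (H.pos _ (by positivity)))
  have e3 : 1 / (q : ℝ) ^ 2 / (1 / ((2 * q : ℕ) : ℝ) ^ 2) = 2 ^ 2 := by
    push_cast
    field_simp
  rw [e3, Real.log_pow, Nat.cast_ofNat, div_mul_eq_mul_div]
  have := Real.log_two_lt_d9
  exact div_le_div_of_nonneg_right (by linarith) hq0.le

theorem small (H : Occ Z n) : Z (1 / 4000000) ≤ Real.exp (n * 0.002085) := by
  have h1 : ∀ k : ℕ, Z (1 / 4000000) ≤ Z (1 / ((2 ^ k * 2000 : ℕ) : ℝ) ^ 2) *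
      Real.exp (n * (0.002085 * (1 - (1 / 2) ^ k))) := by
    intro k
    induction k with
    | zero => norm_num
    | succ k ih =>
      have a1 := small_step H (q := 2 ^ k * 2000)
        (le_trans (by norm_num) (Nat.le_mul_of_pos_left _ (by positivity)))
      refine ih.trans ((mul_le_mul_of_nonneg_right a1 (Real.exp_pos _).le).trans_eq ?_)
      rw [mul_assoc, ← Real.exp_add, ← mul_assoc, ← pow_succ']
      congr 2
      push_cast
      rw [one_div_pow, one_div_pow]
      field_simp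
      ring
  obtain ⟨K, hK⟩ := H.lim
  have h2 : Tendsto (fun k : ℕ => (1 + |K| * (1 / 2 : ℝ) ^ k) * Real.exp (n * 0.002085)) atTop
      (𝓝 ((1 + |K| * 0) * Real.exp (n * 0.002085))) :=
    (((tendsto_pow_atTop_nhds_zero_of_lt_one (by norm_num) (by norm_num)).const_mul _).const_add
      _).mul_const _
  rw [mul_zero, add_zero, one_mul] at h2
  refine ge_of_tendsto' h2 fun k => (h1 k).trans ?_
  have a0 : (1 : ℝ) ≤ 2 ^ k := one_le_pow₀ one_le_two
  have a1 : 1 / ((2 ^ k * 2000 : ℕ) : ℝ) ^ 2 ≤ (1 / 2) ^ k := by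
    rw [one_div_pow]
    push_cast
    refine one_div_le_one_div_of_le (by positivity) ?_
    nlinarith
  have a2 : (1 / 2 : ℝ) ^ k ≤ 1 := pow_le_one₀ (by norm_num) (by norm_num)
  have a3 : 0 ≤ 1 / ((2 ^ k * 2000 : ℕ) : ℝ) ^ 2 := by positivity
  refine mul_le_mul ((hK _ a3 (a1.trans a2)).trans ?_) (Real.exp_le_exp.2
    (mul_le_mul_of_nonneg_left ?_ (Nat.cast_nonneg n))) (Real.exp_pos _).le (by positivity)
  · have := mul_le_mul (le_abs_self K) a1 a3 (abs_nonneg K)
    linarith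
  · have : (0 : ℝ) ≤ (1 / 2) ^ k := by positivity
    linarith

theorem exp_le : Real.exp 1.050085 ≤ 143 / 50 := by
  have h1 := Real.exp_one_lt_d9
  have h2 : Real.exp (0.050085 / 8) ≤ 1 / (1 - 0.050085 / 8) :=
    Real.exp_bound_div_one_sub_of_interval (by norm_num) (by norm_num)
  have h3 : Real.exp 1.050085 = Real.exp 1 * Real.exp (0.050085 / 8) ^ 8 := by
    rw [← Real.exp_nat_mul, ← Real.exp_add]
    norm_num
  rw [h3]
  refine (mul_le_mul h1.le (pow_le_pow_left₀ (Real.exp_pos _).le h2 8) (by positivity)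
    (by norm_num)).trans ?_
  norm_num

theorem descent (H : Occ Z n) : Z 1 ≤ (143 / 50) ^ n := by
  have h1 := grid H 1999 0
  have h2 : ((tot 1999 0 : ℕ) : ℝ) ≤ 1048000000 := by exact_mod_cast tot_le
  have e : (((1999 : ℕ) : ℝ) + 1) ^ 2 / 4000000 = 1 := by norm_num
  rw [e, Nat.cast_zero, zero_div, mul_zero, Real.exp_zero, mul_one] at h1
  refine h1.trans ((mul_le_mul_of_nonneg_right (small H) (Real.exp_pos _).le).trans ?_)
  refine le_trans ?_ (pow_le_pow_left₀ (Real.exp_pos _).le exp_le n)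
  rw [← Real.exp_add, ← Real.exp_nat_mul, ← mul_add]
  refine Real.exp_le_exp.2 (mul_le_mul_of_nonneg_left ?_ (Nat.cast_nonneg n))
  linarith

end Pool.Agent.MP_081e4c_co.OC
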