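import Pool.Agent.MP_081e4c_co.OC.Net
import Pool.Agent.MP_081e4c_co.Defs
import Mathlib.SetTheory.Cardinal.Finite
import Mathlib.Order.Fin.Basic
import Mathlib.Data.Fintype.Perm
import Mathlib.Order.Preorder.Finite

/-! The lattice of stable matchings and its irreducible elements. -/

open Finset

namespace Pool.Agent.MP_081e4c_co.OC

noncomputable section

open Classical

variable {n : ℕ} {pm pw : Fin n → Equiv.Perm (Fin n)}

theorem st_lt {M : Equiv.Perm (Fin n)} (hM : IsStable pm pw M) {m w : Fin n}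
    (h : pm m w < pm m (M m)) : pw w (M.symm w) < pw w m := by
  have hne : M m ≠ w := fun h' => by rw [h'] at h; exact lt_irrefl _ h
  refine lt_of_le_of_ne (not_lt.1 fun h' => hM ⟨m, w, hne, h, h'⟩) fun h' => hne ?_
  rw [← (pw w).injective h', Equiv.apply_symm_apply]

theorem st_symm {M : Equiv.Perm (Fin n)} (hM : IsStable pm pw M) : IsStable pw pm M.symm := by
  rintro ⟨w, m, h1, h2, h3⟩
  exact hM ⟨m, w, fun e => h1 (by rw [← e, Equiv.symm_apply_apply]), h3, h2⟩

/-- what is better for all men is worse for all women -/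
theorem opp {M N : Equiv.Perm (Fin n)} (hN : IsStable pm pw N)
    (h : ∀ m, pm m (M m) ≤ pm m (N m)) (w : Fin n) : pw w (N.symm w) ≤ pw w (M.symm w) := by
  have h1 := h (M.symm w)
  rw [Equiv.apply_symm_apply] at h1
  rcases h1.eq_or_lt with e | e
  · have e1 := (pm _).injective e
    rw [← Equiv.symm_apply_eq] at e1
    have e2 : N.symm w = M.symm w := by
      rw [Equiv.symm_apply_eq]
      exact (pm _).injective e
    exact (congrArg (pw w) e2).le
  · exact (st_lt hN e).le

theorem meet {M N : Equiv.Perm (Fin n)} (hM : IsStable pm pw M) (hN : IsStable pm pw N) :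
    ∃ K : Equiv.Perm (Fin n), IsStable pm pw K ∧ ∀ m, (K m = M m ∨ K m = N m) ∧
      pm m (K m) ≤ pm m (M m) ∧ pm m (K m) ≤ pm m (N m) := by
  let f : Fin n → Fin n := fun m => if pm m (M m) ≤ pm m (N m) then M m else N m
  have hf : ∀ m, (f m = M m ∨ f m = N m) ∧ pm m (f m) ≤ pm m (M m) ∧ pm m (f m) ≤ pm m (N m) := by
    intro m
    by_cases h : pm m (M m) ≤ pm m (N m)
    · have e : f m = M m := if_pos h
      rw [e]
      exact ⟨Or.inl rfl, le_rfl, h⟩
    · have e : f m = N m := if_neg h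
      rw [e]
      exact ⟨Or.inr rfl, (not_le.1 h).le, le_rfl⟩
  have key : ∀ a b, f a = f b → f a = M a → f b = N b → a = b := by
    intro a b e ha hb
    by_contra hne
    have n1 : f a ≠ N a := fun h => hne (N.injective (by rw [← h, e, hb]))
    have n2 : f b ≠ M b := fun h => hne (M.injective (by rw [← h, ← e, ha]))
    have l1 := st_lt hN (lt_of_le_of_ne (hf a).2.2 fun h => n1 ((pm a).injective h))
    have l2 := st_lt hM (lt_of_le_of_ne (hf b).2.1 fun h => n2 ((pm b).injective h))
    rw [← e, ha, Equiv.symm_apply_apply] at l2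
    rw [e, hb, Equiv.symm_apply_apply, ← hb, ← e, ha] at l1
    exact lt_asymm l1 l2
  have hinj : Function.Injective f := by
    intro a b e
    rcases (hf a).1 with ha | ha <;> rcases (hf b).1 with hb | hb
    · exact M.injective (by rw [← ha, e, hb])
    · exact key a b e ha hb
    · exact (key b a e.symm hb ha).symm
    · exact N.injective (by rw [← ha, e, hb])
  refine ⟨Equiv.ofBijective f (Finite.injective_iff_bijective.1 hinj), ?_, hf⟩
  rintro ⟨m, w, -, h2, h3⟩
  set x := (Equiv.ofBijective f (Finite.injective_iff_bijective.1 hinj)).symm w with hx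
  have e : f x = w := (Equiv.ofBijective f _).apply_symm_apply w
  have h2' : pm m w < pm m (f m) := h2
  rcases (hf x).1 with h | h
  · have l := st_lt hM (h2'.trans_le (hf m).2.1)
    rw [← e, h, Equiv.symm_apply_apply, ← h, e] at l
    exact lt_asymm l h3
  · have l := st_lt hN (h2'.trans_le (hf m).2.2)
    rw [← e, h, Equiv.symm_apply_apply, ← h, e] at l
    exact lt_asymm l h3

/-- the stable matchings, ordered by the men (higher is worse) -/
def St (pm pw : Fin n → Equiv.Perm (Fin n)) : Type := {M : Equiv.Perm (Fin n) // IsStable pm pw M}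

instance : Finite (St pm pw) := Subtype.finite

instance : PartialOrder (St pm pw) :=
  PartialOrder.lift (fun M m => pm m (M.1 m)) fun _ _ e =>
    Subtype.ext (Equiv.ext fun m => (pm m).injective (congrFun e m))

theorem le_iff {M N : St pm pw} : M ≤ N ↔ ∀ m, pm m (M.1 m) ≤ pm m (N.1 m) := Iff.rfl

theorem opp' {M N : St pm pw} (h : M ≤ N) (w : Fin n) :
    pw w (N.1.symm w) ≤ pw w (M.1.symm w) := opp N.2 h w

theorem inf' (M N : St pm pw) :
    ∃ K : St pm pw, K ≤ M ∧ K ≤ N ∧ ∀ m, K.1 m = M.1 m ∨ K.1 m = N.1 m := by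
  obtain ⟨K, h1, h2⟩ := meet M.2 N.2
  exact ⟨⟨K, h1⟩, fun m => (h2 m).2.1, fun m => (h2 m).2.2, fun m => (h2 m).1⟩

theorem sup' (M N : St pm pw) :
    ∃ K : St pm pw, M ≤ K ∧ N ≤ K ∧ ∀ X, M ≤ X → N ≤ X → K ≤ X := by
  obtain ⟨K, h1, h2⟩ := meet (st_symm M.2) (st_symm N.2)
  refine ⟨⟨K.symm, st_symm h1⟩, fun m => opp (st_symm M.2) (fun w => (h2 w).2.1) m,
    fun m => opp (st_symm N.2) (fun w => (h2 w).2.2) m, fun X hM hN m => ?_⟩
  have e := (h2 (K.symm m)).1
  rw [Equiv.apply_symm_apply] at e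
  change pm m (K.symm m) ≤ pm m (X.1 m)
  rcases e with e | e
  · rw [← (Equiv.eq_symm_apply _).1 e]
    exact hM m
  · rw [← (Equiv.eq_symm_apply _).1 e]
    exact hN m

/-- the irreducible elements -/
def Irr (pm pw : Fin n → Equiv.Perm (Fin n)) : Type :=
  {r : St pm pw // ∃ l, l < r ∧ ∀ N, N < r → N ≤ l}

instance : PartialOrder (Irr pm pw) :=
  inferInstanceAs (PartialOrder {r : St pm pw // ∃ l, l < r ∧ ∀ N, N < r → N ≤ l})

instance : Finite (Irr pm pw) := Subtype.finite

instance : Fintype (Irr pm pw) := Fintype.ofFinite _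

def low (r : Irr pm pw) : St pm pw := r.2.choose

theorem low_lt (r : Irr pm pw) : low r < r.1 := r.2.choose_spec.1

theorem le_low (r : Irr pm pw) {N : St pm pw} (h : N < r.1) : N ≤ low r := r.2.choose_spec.2 N h

def lo (r : Irr pm pw) : Equiv.Perm (Fin n) := (low r).1

def hi (r : Irr pm pw) : Equiv.Perm (Fin n) := r.1.1

theorem sideM : Side (lo (pm := pm) (pw := pw)) hi := by
  have key : ∀ (r s : Irr pm pw) m, m ∈ men lo hi r → pm m (hi r m) ≤ pm m (hi s m) → r ≤ s := by
    intro r s m hr h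
    obtain ⟨K, k1, k2, k3⟩ := inf' r.1 s.1
    rcases k1.eq_or_lt with e | e
    · exact e.symm.le.trans k2
    · have a1 : pm m (K.1 m) ≤ pm m (lo r m) := le_low r e m
      have a2 : pm m (lo r m) ≤ pm m (hi r m) := (low_lt r).le m
      have a3 : pm m (hi r m) ≤ pm m (K.1 m) := by
        rcases k3 m with e' | e'
        · exact e' ▸ le_rfl
        · exact e' ▸ h
      exact absurd ((pm m).injective (le_antisymm a2 (a3.trans a1))) (mem_men.1 hr)
  refine ⟨fun r e => (low_lt r).ne (Subtype.ext e), fun r s m hr hs => ?_, fun r s m h _ hs => ?_⟩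
  · exact (le_total _ _).imp (key r s m hr) (key s r m hs)
  · have a1 : pm m (hi r m) ≤ pm m (lo s m) := le_low s h m
    have a2 : pm m (lo r m) ≤ pm m (hi r m) := (low_lt r).le m
    have a3 : pm m (lo s m) < pm m (hi s m) :=
      lt_of_le_of_ne ((low_lt s).le m) fun e => mem_men.1 hs ((pm m).injective e)
    exact ⟨fun e => (a1.trans_lt a3).ne' (congrArg _ e),
      fun e => ((a2.trans a1).trans_lt a3).ne' (congrArg _ e)⟩

theorem sideW : Side (inv (lo (pm := pm) (pw := pw))) (inv hi) := by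
  have key : ∀ (r s : Irr pm pw) w, w ∈ men (inv lo) (inv hi) r →
      pw w (inv hi s w) ≤ pw w (inv hi r w) → r ≤ s := by
    intro r s w hr h
    obtain ⟨K, k1, k2, k3⟩ := inf' r.1 s.1
    rcases k1.eq_or_lt with e | e
    · exact e.symm.le.trans k2
    · have a1 : pw w (inv lo r w) ≤ pw w (K.1.symm w) := opp' (le_low r e) w
      have a2 : pw w (inv hi r w) ≤ pw w (inv lo r w) := opp' (low_lt r).le w
      have a3 : pw w (K.1.symm w) ≤ pw w (inv hi r w) := by
        have e' := k3 (K.1.symm w)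
        rw [Equiv.apply_symm_apply] at e'
        rcases e' with e' | e'
        · rw [← (Equiv.symm_apply_eq _).2 e']
          exact le_rfl
        · rw [← (Equiv.symm_apply_eq _).2 e']
          exact h
      exact absurd ((pw w).injective (le_antisymm (a1.trans a3) a2)) (mem_men.1 hr)
  refine ⟨fun r e => sideM.ne r (Equiv.symm_bijective.1 e), fun r s w hr hs => ?_,
    fun r s w h _ hs => ?_⟩
  · exact (le_total _ _).imp (key r s w hr) (key s r w hs)
  · have a1 : pw w (inv lo s w) ≤ pw w (inv hi r w) := opp' (le_low s h) w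
    have a2 : pw w (inv hi r w) ≤ pw w (inv lo r w) := opp' (low_lt r).le w
    have a3 : pw w (inv hi s w) < pw w (inv lo s w) :=
      lt_of_le_of_ne (opp' (low_lt s).le w) fun e => mem_men.1 hs ((pw w).injective e).symm
    exact ⟨fun e => (a3.trans_le a1).ne (congrArg _ e),
      fun e => ((a3.trans_le a1).trans_le a2).ne (congrArg _ e)⟩

theorem le_of_irr {M M' : St pm pw} (h : ∀ r : Irr pm pw, r.1 ≤ M → r.1 ≤ M') : M ≤ M' := by
  suffices H : ∀ N, N ≤ M → N ≤ M' from H M le_rfl
  intro N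
  induction N using WellFoundedLT.induction with
  | ind N ih =>
    intro hN
    by_cases h1 : ∃ l, l < N
    · obtain ⟨l, hl, hmax⟩ := Set.Finite.exists_maximal (Set.toFinite {l | l < N}) h1
      by_cases h2 : ∀ X, X < N → X ≤ l
      · exact h ⟨N, l, hl, h2⟩ hN
      · push Not at h2
        obtain ⟨X, x1, x2⟩ := h2
        obtain ⟨K, k1, k2, k3⟩ := sup' l X
        rcases (k3 N (le_of_lt hl) x1.le).eq_or_lt with e | e
        · exact e ▸ k3 M' (ih l hl ((le_of_lt hl).trans hN)) (ih X x1 (x1.le.trans hN))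
        · exact absurd (k2.trans (hmax e k1)) x2
    · obtain ⟨K, k1, k2, -⟩ := inf' N M'
      rcases k1.eq_or_lt with e | e
      · exact e ▸ k2
      · exact absurd ⟨K, e⟩ h1

theorem card_le_ac : Nat.card (St pm pw) ≤ (ac (Irr pm pw)).card := by
  let F : St pm pw → Finset (Irr pm pw) := fun M => univ.filter fun r => Maximal (·.1 ≤ M) r
  have h1 : ∀ M, F M ∈ ac (Irr pm pw) := fun M => mem_filter.2 ⟨mem_univ _, fun a ha b hb hab =>
    le_antisymm hab ((mem_filter.1 ha).2.2 (mem_filter.1 hb).2.1 hab)⟩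
  have h2 : ∀ M M', F M = F M' → M ≤ M' := fun M M' e => le_of_irr fun r hr => by
    obtain ⟨s, hs, hm⟩ := Finite.exists_le_maximal (p := fun x : Irr pm pw => x.1 ≤ M) hr
    have a1 : s ∈ F M' := e ▸ mem_filter.2 ⟨mem_univ _, hm⟩
    exact le_trans hs (mem_filter.1 a1).2.1
  rw [← Fintype.card_coe, ← Nat.card_eq_fintype_card]
  exact Nat.card_le_card_of_injective (fun M => ⟨F M, h1 M⟩) fun M M' e =>
    le_antisymm (h2 _ _ (congrArg Subtype.val e)) (h2 _ _ (congrArg Subtype.val e).symm)

theorem card_le_Z : (Nat.card (St pm pw) : ℝ) ≤ ∑ A ∈ ac (Irr pm pw), wt lo hi 1 A := by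
  refine (Nat.cast_le.2 card_le_ac).trans ?_
  rw [← nsmul_one]
  refine card_nsmul_le_sum _ _ _ fun A _ => ?_
  refine Finset.one_le_prod fun r _ => ?_
  have : (2 : ℝ) ≤ (men lo hi r).card := by exact_mod_cast two_le (sideM.ne r)
  linarith

end

end Pool.Agent.MP_081e4c_co.OC
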