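import Pool.Agent.MP_081e4c_co.OC.Lat
import Pool.Agent.MP_081e4c_co.OC.Desc

/-! The number of stable matchings through the occupancy bound. -/

open Finset

namespace Pool.Agent.MP_081e4c_co.OC

variable {P : Type*} [Fintype P] [PartialOrder P] {n : ℕ} {lo hi : P → Equiv.Perm (Fin n)}

omit [Fintype P] [PartialOrder P] in
theorem wt_scale (t w : ℝ) (A : Finset P) : wt lo hi (t * w) A = t ^ A.card * wt lo hi w A := by
  rw [wt, wt, ← prod_const, ← prod_mul_distrib]
  exact prod_congr rfl fun r _ => by ring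

/-- convexity of the logarithm of the partition function in the logarithm of the fugacity -/
theorem convex_step {w w' β : ℝ} (hw' : 0 < w') (h : w' ≤ w)
    (hE : ∑ A ∈ ac P, wt lo hi w A * A.card ≤ β * ∑ A ∈ ac P, wt lo hi w A) :
    ∑ A ∈ ac P, wt lo hi w A ≤
      (∑ A ∈ ac P, wt lo hi w' A) * Real.exp (β * Real.log (w / w')) := by
  have hw : 0 < w := hw'.trans_le h
  set ρ := Real.log (w / w') with hρ
  have hρ0 : 0 ≤ ρ := Real.log_nonneg ((one_le_div hw').2 h)
  have e : w' = Real.exp (-ρ) * w := by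
    rw [Real.exp_neg, hρ, Real.exp_log (by positivity)]
    field_simp
  have h1 : ∀ A ∈ ac P, wt lo hi w A * (1 + β * ρ) - ρ * (wt lo hi w A * A.card) ≤
      wt lo hi w' A * Real.exp (β * ρ) := by
    intro A _
    have a1 := Real.add_one_le_exp (A.card * -ρ + β * ρ)
    have a2 := mul_le_mul_of_nonneg_left a1 (wt_nonneg (lo := lo) (hi := hi) hw.le A)
    rw [e, wt_scale, ← Real.exp_nat_mul]
    rw [Real.exp_add] at a2
    linarith
  have h2 := sum_le_sum h1
  rw [sum_sub_distrib, ← sum_mul, ← mul_sum, ← sum_mul] at h2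
  have h3 := mul_le_mul_of_nonneg_left hE hρ0
  linarith

theorem occ_Z (H : Side lo hi) (H' : Side (inv lo) (inv hi)) :
    Occ (fun w => ∑ A ∈ ac P, wt lo hi w A) n := by
  classical
  refine ⟨fun w hw => sum_nonneg fun A _ => wt_nonneg hw A, fun w w' α T hw' h hT hα => ?_,
    ⟨∑ A ∈ ac P, wt lo hi 1 A, fun w h0 h1 => ?_⟩⟩
  · have hw : 0 ≤ w := hw'.le.trans h
    have a1 := occ H H' hw hT.1 hT.2.1 fun a => hT.2.2 a (Nat.zero_le a)
    have hY : 0 < 2 * (1 + w * (T 0 + T 1)) := by
      have := mul_nonneg hw (add_nonneg (hT.2.1 0) (hT.2.1 1))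
      linarith
    have hZ : 0 ≤ ∑ A ∈ ac P, wt lo hi w A := sum_nonneg fun A _ => wt_nonneg hw A
    rw [← mul_assoc]
    refine convex_step hw' h (le_of_mul_le_mul_right (a1.trans ?_) hY)
    have := mul_le_mul_of_nonneg_right (mul_le_mul_of_nonneg_left hα (Nat.cast_nonneg n)) hZ
    linarith
  · have a1 : ∀ A ∈ ac P, wt lo hi w A ≤ (if A = ∅ then 1 else 0) + wt lo hi 1 A * w := by
      intro A _
      have b1 := wt_nonneg (lo := lo) (hi := hi) zero_le_one A
      split_ifs with hA
      · have := mul_nonneg b1 h0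
        have e : wt lo hi w A = 1 := by rw [hA, wt, prod_empty]
        linarith
      · have b2 : w ^ A.card ≤ w := pow_le_of_le_one h0 h1 (card_ne_zero.2 (nonempty_iff_ne_empty.2 hA))
        have e := wt_scale (lo := lo) (hi := hi) w 1 A
        rw [mul_one] at e
        rw [e, zero_add, mul_comm]
        exact mul_le_mul_of_nonneg_left b2 b1
    refine (sum_le_sum a1).trans ?_
    rw [sum_add_distrib, ← sum_mul, sum_ite_eq']
    split_ifs <;> linarith

theorem card_stable (pm pw : Fin n → Equiv.Perm (Fin n)) :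
    (Nat.card {M : Equiv.Perm (Fin n) // IsStable pm pw M} : ℝ) ≤ (143 / 50) ^ n :=
  card_le_Z.trans (descent (occ_Z sideM sideW))

end Pool.Agent.MP_081e4c_co.OC
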