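import Mathlib.Algebra.BigOperators.Intervals
import Mathlib.Algebra.Order.BigOperators.Ring.Finset
import Mathlib.Algebra.BigOperators.Ring.Finset
import Mathlib.Algebra.Group.End
import Mathlib.Data.Real.Basic
import Mathlib.Data.Fintype.Powerset
import Mathlib.Data.Finset.Max
import Mathlib.Tactic.Linarith
import Mathlib.Tactic.Ring
import Mathlib.Tactic.Positivity

/-! Antichains of a rotation poset: windows of the men and the add-one inequality. -/

open Finset

namespace Pool.Agent.MP_081e4c_co.OC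

noncomputable section

open Classical

variable {P : Type*} [Fintype P] [PartialOrder P] {n : ℕ}

/-- the men moved by `r` -/
def men (lo hi : P → Equiv.Perm (Fin n)) (r : P) : Finset (Fin n) :=
  univ.filter fun m => lo r m ≠ hi r m

/-- the inverse matchings -/
def inv (f : P → Equiv.Perm (Fin n)) (r : P) : Equiv.Perm (Fin n) := (f r).symm

def free (B : Finset P) : Finset P := univ.filter fun s => ∀ b ∈ B, ¬ b ≤ s ∧ ¬ s ≤ b

def win (lo hi : P → Equiv.Perm (Fin n)) (B : Finset P) (m : Fin n) : Finset P :=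
  (free B).filter fun s => m ∈ men lo hi s

def idx (W : Finset P) (s : P) : ℕ := (W.filter fun t => t < s).card

def qual (lo hi : P → Equiv.Perm (Fin n)) (B : Finset P) (m : Fin n) : Finset P :=
  (free B).filter fun r => ∃ s ∈ win lo hi B m, r ≤ s

def ac (P : Type*) [Fintype P] [PartialOrder P] : Finset (Finset P) :=
  univ.filter fun A => ∀ a ∈ A, ∀ b ∈ A, a ≤ b → a = b

/-- the hypotheses on one side -/
structure Side (lo hi : P → Equiv.Perm (Fin n)) : Prop where
  ne : ∀ r, lo r ≠ hi r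
  chain : ∀ r s m, m ∈ men lo hi r → m ∈ men lo hi s → r ≤ s ∨ s ≤ r
  new : ∀ r s m, r < s → m ∈ men lo hi r → m ∈ men lo hi s → hi s m ≠ hi r m ∧ hi s m ≠ lo r m

omit [Fintype P] [PartialOrder P] in
theorem mem_men {lo hi : P → Equiv.Perm (Fin n)} {r : P} {m : Fin n} :
    m ∈ men lo hi r ↔ lo r m ≠ hi r m := by simp [men]

omit [Fintype P] [PartialOrder P] in
theorem men_inv (lo hi : P → Equiv.Perm (Fin n)) (r : P) :
    men (inv lo) (inv hi) r = (men lo hi r).map (hi r).toEmbedding := by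
  ext x
  rw [mem_map_equiv, mem_men, mem_men]
  simp only [inv, Equiv.apply_symm_apply, ne_eq]
  rw [Equiv.symm_apply_eq, eq_comm]

omit [Fintype P] [PartialOrder P] in
theorem card_inv (lo hi : P → Equiv.Perm (Fin n)) (r : P) :
    (men (inv lo) (inv hi) r).card = (men lo hi r).card := by rw [men_inv, card_map]

omit [Fintype P] [PartialOrder P] in
theorem hi_mem {lo hi : P → Equiv.Perm (Fin n)} {r : P} {m : Fin n} (h : m ∈ men lo hi r) :
    hi r m ∈ men (inv lo) (inv hi) r := by
  rw [men_inv]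
  exact mem_map_of_mem _ h

omit [Fintype P] [PartialOrder P] in
theorem lo_mem {lo hi : P → Equiv.Perm (Fin n)} {r : P} {m : Fin n} (h : m ∈ men lo hi r) :
    lo r m ∈ men (inv lo) (inv hi) r := by
  rw [mem_men] at h ⊢
  simp only [inv, Equiv.symm_apply_apply]
  intro e
  apply h
  rw [Equiv.eq_symm_apply] at e
  exact e.symm

omit [Fintype P] [PartialOrder P] in
theorem two_le {lo hi : P → Equiv.Perm (Fin n)} {r : P} (h : lo r ≠ hi r) :
    2 ≤ (men lo hi r).card := by
  obtain ⟨m, hm⟩ : ∃ m, lo r m ≠ hi r m := by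
    by_contra hc
    exact h (Equiv.ext fun m => by_contra fun e => hc ⟨m, e⟩)
  rw [← card_inv]
  exact one_lt_card.2 ⟨_, lo_mem (mem_men.2 hm), _, hi_mem (mem_men.2 hm), hm⟩

omit [Fintype P] in
theorem idx_lt {W : Finset P} {s t : P} (hs : s ∈ W) (h : s < t) : idx W s < idx W t := by
  refine card_lt_card ⟨fun x hx => ?_, fun hc => ?_⟩
  · rw [mem_filter] at hx ⊢
    exact ⟨hx.1, hx.2.trans h⟩
  · exact lt_irrefl _ (mem_filter.1 (hc (mem_filter.2 ⟨hs, h⟩))).2

omit [Fintype P] in
theorem idx_inj {W : Finset P} (hW : ∀ s ∈ W, ∀ t ∈ W, s ≤ t ∨ t ≤ s) :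
    Set.InjOn (idx W) W := by
  intro s hs t ht e
  by_contra hne
  rcases hW s hs t ht with h | h
  · exact (idx_lt hs (lt_of_le_of_ne h hne)).ne e
  · exact (idx_lt ht (lt_of_le_of_ne h (Ne.symm hne))).ne e.symm

omit [Fintype P] in
theorem sum_idx {W : Finset P} (hW : ∀ s ∈ W, ∀ t ∈ W, s ≤ t ∨ t ≤ s) (f : ℕ → ℝ) :
    ∑ s ∈ W, f (idx W s) = ∑ i ∈ range W.card, f i := by
  have h1 : W.image (idx W) = range W.card := by
    refine eq_of_subset_of_card_le (fun i hi => ?_) ?_
    · obtain ⟨s, hs, rfl⟩ := mem_image.1 hi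
      refine mem_range.2 (card_lt_card ⟨filter_subset _ _, fun hc => ?_⟩)
      exact lt_irrefl _ (mem_filter.1 (hc hs)).2
    · rw [card_range, card_image_of_injOn (idx_inj hW)]
  rw [← h1, sum_image (idx_inj hW)]

theorem free_insert {B : Finset P} {r s : P} :
    s ∈ free (insert r B) ↔ s ∈ free B ∧ ¬ r ≤ s ∧ ¬ s ≤ r := by
  simp only [free, mem_filter, mem_univ, true_and, forall_mem_insert]
  exact and_comm

theorem not_mem_of_free {B : Finset P} {r : P} (h : r ∈ free B) : r ∉ B :=
  fun hr => ((mem_filter.1 h).2 r hr).1 le_rfl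

theorem insert_ac {B : Finset P} {r : P} (hB : B ∈ ac P) (h : r ∈ free B) :
    insert r B ∈ ac P := by
  have h1 := (mem_filter.1 h).2
  have h2 := (mem_filter.1 hB).2
  refine mem_filter.2 ⟨mem_univ _, fun a ha b hb hab => ?_⟩
  rcases mem_insert.1 ha with rfl | ha' <;> rcases mem_insert.1 hb with rfl | hb'
  · rfl
  · exact absurd hab (h1 b hb').2
  · exact absurd hab (h1 a ha').1
  · exact h2 a ha' b hb' hab

variable {lo hi : P → Equiv.Perm (Fin n)}

theorem win_chain (H : Side lo hi) (B : Finset P) (m : Fin n) :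
    ∀ s ∈ win lo hi B m, ∀ t ∈ win lo hi B m, s ≤ t ∨ t ≤ s :=
  fun s hs t ht => H.chain s t m (mem_filter.1 hs).2 (mem_filter.1 ht).2

theorem hi_inj (H : Side lo hi) (B : Finset P) (m : Fin n) :
    Set.InjOn (fun s => hi s m) (win lo hi B m) := by
  intro s hs t ht e
  by_contra hne
  have a1 := (mem_filter.1 hs).2
  have a2 := (mem_filter.1 ht).2
  rcases H.chain s t m a1 a2 with h | h
  · exact (H.new s t m (lt_of_le_of_ne h hne) a1 a2).1 e.symm
  · exact (H.new t s m (lt_of_le_of_ne h (Ne.symm hne)) a2 a1).1 e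

/-- the add-one inequality: at most one member of an antichain blocks a man privately -/
theorem add_one (H : Side lo hi) (m : Fin n) (g : Finset P → ℝ) (hg : ∀ A, 0 ≤ g A) :
    ∑ B ∈ ac P, ∑ r ∈ qual lo hi B m, g (insert r B) ≤ ∑ A ∈ ac P, g A := by
  rw [sum_sigma']
  have hinj : Set.InjOn (fun x : (_ : Finset P) × P => insert x.2 x.1)
      ((ac P).sigma fun B => qual lo hi B m : Finset _) := by
    rintro ⟨B, r⟩ h1 ⟨B', r'⟩ h2 e
    obtain ⟨-, h1⟩ := mem_sigma.1 (mem_coe.1 h1)
    obtain ⟨-, h2⟩ := mem_sigma.1 (mem_coe.1 h2)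
    obtain ⟨f1, s, hs, hr⟩ := mem_filter.1 h1
    obtain ⟨f2, s', hs', hr'⟩ := mem_filter.1 h2
    have e' : insert r B = insert r' B' := e
    have hrr : r = r' := by
      by_contra hne
      have b1 : r ∈ B' := (mem_insert.1 (e' ▸ mem_insert_self r B)).resolve_left hne
      have b2 : r' ∈ B :=
        (mem_insert.1 (e'.symm ▸ mem_insert_self r' B')).resolve_left (Ne.symm hne)
      rcases H.chain s s' m (mem_filter.1 hs).2 (mem_filter.1 hs').2 with h | h
      · exact ((mem_filter.1 (mem_filter.1 hs').1).2 r b1).1 (hr.trans h)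
      · exact ((mem_filter.1 (mem_filter.1 hs).1).2 r' b2).1 (hr'.trans h)
    subst hrr
    have g1 : r ∉ B := not_mem_of_free f1
    have g2 : r ∉ B' := not_mem_of_free f2
    have : B = B' := by
      rw [← erase_insert g1, e', erase_insert g2]
    subst this
    rfl
  rw [← sum_image (f := g) hinj]
  refine sum_le_sum_of_subset_of_nonneg (fun A hA => ?_) fun A _ _ => hg A
  obtain ⟨⟨B, r⟩, hx, rfl⟩ := mem_image.1 hA
  obtain ⟨h1, h2⟩ := mem_sigma.1 hx
  exact insert_ac h1 (mem_filter.1 h2).1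

/-- the later members of the window whose incoming woman is moved by `r` -/
def hits (lo hi : P → Equiv.Perm (Fin n)) (B : Finset P) (m : Fin n) (r : P) : Finset P :=
  (win lo hi B m).filter fun s => hi s m ∈ men (inv lo) (inv hi) r ∧ r < s

theorem point (H : Side lo hi) {T : ℕ → ℝ} (hT : Antitone T) (h0 : ∀ a, 0 ≤ T a)
    (B : Finset P) (m : Fin n) (r : P) :
    (if r ∈ win lo hi B m then 2 * (T 0 + T 1) else 0) +
        ∑ s ∈ hits lo hi B m r, 2 * T (idx (win lo hi B m) s) ≤
      if ∃ s ∈ win lo hi B m, r ≤ s then ((men lo hi r).card : ℝ) *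
        (T (win lo hi (insert r B) m).card + T ((win lo hi (insert r B) m).card + 1)) else 0 := by
  have hk : (2 : ℝ) ≤ (men lo hi r).card := by exact_mod_cast two_le (H.ne r)
  have hinj : Set.InjOn (fun s => hi s m) (hits lo hi B m r) :=
    (hi_inj H B m).mono (coe_subset.2 (filter_subset _ _))
  by_cases hr : r ∈ win lo hi B m
  · have hm := (mem_filter.1 hr).2
    have e : win lo hi (insert r B) m = ∅ := by
      refine eq_empty_of_forall_notMem fun s hs => ?_
      obtain ⟨a1, a2⟩ := mem_filter.1 hs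
      have a3 := (free_insert.1 a1).2
      exact (H.chain r s m hm a2).elim a3.1 a3.2
    rw [if_pos hr, if_pos ⟨r, hr, le_rfl⟩, e, card_empty]
    have c1 : (hits lo hi B m r).card ≤
        (((men (inv lo) (inv hi) r).erase (hi r m)).erase (lo r m)).card := by
      refine card_le_card_of_injOn (fun s => hi s m) (fun s hs => ?_) hinj
      obtain ⟨a1, a2, a3⟩ := mem_filter.1 (mem_coe.1 hs)
      have a4 := H.new r s m a3 hm (mem_filter.1 a1).2
      exact mem_coe.2 (mem_erase.2 ⟨a4.2, mem_erase.2 ⟨a4.1, a2⟩⟩)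
    rw [card_erase_of_mem (mem_erase.2 ⟨mem_men.1 hm, lo_mem hm⟩), card_erase_of_mem (hi_mem hm),
      card_inv] at c1
    have c2 : ((hits lo hi B m r).card : ℝ) + 2 ≤ (men lo hi r).card := by
      have := two_le (H.ne r)
      exact_mod_cast (by omega : (hits lo hi B m r).card + 2 ≤ (men lo hi r).card)
    have c3 : ∑ s ∈ hits lo hi B m r, 2 * T (idx (win lo hi B m) s) ≤
        (hits lo hi B m r).card • (T 0 + T 1) := by
      refine sum_le_card_nsmul _ _ _ fun s hs => ?_
      have a1 := idx_lt hr (mem_filter.1 hs).2.2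
      have a2 := hT (show 1 ≤ idx (win lo hi B m) s by omega)
      have a3 := hT (Nat.zero_le 1)
      linarith
    rw [nsmul_eq_mul] at c3
    have c4 := add_nonneg (h0 0) (h0 1)
    rw [zero_add]
    nlinarith
  · rw [if_neg hr, zero_add]
    rcases (hits lo hi B m r).eq_empty_or_nonempty with he | hne
    · rw [he, sum_empty]
      split_ifs
      · exact mul_nonneg (by linarith) (add_nonneg (h0 _) (h0 _))
      · exact le_rfl
    obtain ⟨s0, hs0, hmin⟩ := exists_min_image _ (idx (win lo hi B m)) hne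
    obtain ⟨a1, -, a3⟩ := mem_filter.1 hs0
    rw [if_pos ⟨s0, a1, a3.le⟩]
    set a := idx (win lo hi B m) s0 with ha
    have l1 : (win lo hi (insert r B) m).card ≤ a := by
      refine card_le_card fun s hs => ?_
      obtain ⟨b1, b2⟩ := mem_filter.1 hs
      obtain ⟨b3, b4, -⟩ := free_insert.1 b1
      have b5 : s ∈ win lo hi B m := mem_filter.2 ⟨b3, b2⟩
      refine mem_filter.2 ⟨b5, ?_⟩
      rcases win_chain H B m s b5 s0 a1 with h | h
      · exact lt_of_le_of_ne h fun e => b4 (e ▸ a3.le)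
      · exact absurd (a3.le.trans h) b4
    have c1 : (hits lo hi B m r).card ≤ (men lo hi r).card := by
      rw [← card_inv]
      exact card_le_card_of_injOn (fun s => hi s m)
        (fun s hs => mem_coe.2 (mem_filter.1 (mem_coe.1 hs)).2.1) hinj
    have c2 : (((hits lo hi B m r).erase s0).card : ℝ) + 1 ≤ (men lo hi r).card := by
      have := card_erase_add_one hs0
      exact_mod_cast (by omega : ((hits lo hi B m r).erase s0).card + 1 ≤ (men lo hi r).card)
    have c3 : ∑ s ∈ (hits lo hi B m r).erase s0, 2 * T (idx (win lo hi B m) s) ≤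
        ((hits lo hi B m r).erase s0).card • (2 * T (a + 1)) := by
      refine sum_le_card_nsmul _ _ _ fun s hs => ?_
      obtain ⟨b1, b2⟩ := mem_erase.1 hs
      have b3 := hmin s b2
      have b4 : idx (win lo hi B m) s ≠ a := fun e =>
        b1 (idx_inj (win_chain H B m) (mem_filter.1 b2).1 a1 e)
      have := hT (show a + 1 ≤ idx (win lo hi B m) s by omega)
      linarith
    rw [nsmul_eq_mul] at c3
    rw [← add_sum_erase _ _ hs0]
    have d1 := hT l1
    have d2 := hT (Nat.succ_le_succ l1)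
    have d3 := hT (Nat.le_succ a)
    have d4 := h0 (a + 1)
    have d5 : ((men lo hi r).card : ℝ) * (T a + T (a + 1)) ≤ (men lo hi r).card *
        (T (win lo hi (insert r B) m).card + T ((win lo hi (insert r B) m).card + 1)) :=
      mul_le_mul_of_nonneg_left (add_le_add d1 d2) (by linarith)
    refine le_trans ?_ d5
    simp only [Nat.succ_eq_add_one] at d3
    nlinarith

/-- the cost of the window of one man -/
theorem window (H : Side lo hi) {T : ℕ → ℝ} (hT : Antitone T) (h0 : ∀ a, 0 ≤ T a)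
    (B : Finset P) (m : Fin n) :
    ∑ s ∈ win lo hi B m, (2 * (T 0 + T 1) +
        (idx (win (inv lo) (inv hi) B (hi s m)) s : ℝ) * (2 * T (idx (win lo hi B m) s))) ≤
      ∑ r ∈ qual lo hi B m, ((men lo hi r).card : ℝ) *
        (T (win lo hi (insert r B) m).card + T ((win lo hi (insert r B) m).card + 1)) := by
  have e1 : ∑ s ∈ win lo hi B m, 2 * (T 0 + T 1) =
      ∑ r ∈ free B, if r ∈ win lo hi B m then 2 * (T 0 + T 1) else 0 := by
    rw [← sum_filter, filter_mem_eq_inter,
      inter_eq_right.2 (show win lo hi B m ⊆ free B from filter_subset _ _)]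
  have e2 : ∑ s ∈ win lo hi B m, (idx (win (inv lo) (inv hi) B (hi s m)) s : ℝ) *
      (2 * T (idx (win lo hi B m) s)) =
      ∑ r ∈ free B, ∑ s ∈ hits lo hi B m r, 2 * T (idx (win lo hi B m) s) := by
    simp only [hits, sum_filter]
    rw [sum_comm]
    refine sum_congr rfl fun s _ => ?_
    rw [← sum_filter, sum_const, nsmul_eq_mul, idx, win, filter_filter]
  rw [sum_add_distrib, e1, e2, ← sum_add_distrib, qual, sum_filter]
  exact sum_le_sum fun r _ => point H hT h0 B m r

/-- weight of an antichain -/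
def wt (lo hi : P → Equiv.Perm (Fin n)) (w : ℝ) (A : Finset P) : ℝ :=
  ∏ r ∈ A, w * (men lo hi r).card / 2

omit [Fintype P] [PartialOrder P] in
theorem wt_nonneg {w : ℝ} (hw : 0 ≤ w) (A : Finset P) : 0 ≤ wt lo hi w A :=
  prod_nonneg fun _ _ => by positivity

omit [Fintype P] [PartialOrder P] in
theorem wt_inv (w : ℝ) (A : Finset P) : wt (inv lo) (inv hi) w A = wt lo hi w A := by
  simp only [wt, card_inv]

/-- the cost of one incidence on one side -/
def cost (w : ℝ) (T : ℕ → ℝ) (i d : ℕ) : ℝ := w * (T 0 + T 1) + w * d * T i + (T i - T (i + 2))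

theorem side (H : Side lo hi) {w : ℝ} (hw : 0 ≤ w) {T : ℕ → ℝ} (hT : Antitone T)
    (h0 : ∀ a, 0 ≤ T a) (m : Fin n) :
    ∑ B ∈ ac P, wt lo hi w B * ∑ s ∈ win lo hi B m,
        cost w T (idx (win lo hi B m) s) (idx (win (inv lo) (inv hi) B (hi s m)) s) ≤
      (∑ B ∈ ac P, wt lo hi w B) * (T 0 + T 1) := by
  have h1 := add_one H m (fun A => wt lo hi w A *
    (T (win lo hi A m).card + T ((win lo hi A m).card + 1)))
    fun A => mul_nonneg (wt_nonneg hw A) (add_nonneg (h0 _) (h0 _))
  have h2 : ∀ B ∈ ac P, wt lo hi w B * ∑ s ∈ win lo hi B m,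
      cost w T (idx (win lo hi B m) s) (idx (win (inv lo) (inv hi) B (hi s m)) s) ≤
      ∑ r ∈ qual lo hi B m, wt lo hi w (insert r B) *
        (T (win lo hi (insert r B) m).card + T ((win lo hi (insert r B) m).card + 1)) +
      (wt lo hi w B * (T 0 + T 1) - wt lo hi w B *
        (T (win lo hi B m).card + T ((win lo hi B m).card + 1))) := by
    intro B _
    have a1 := window H hT h0 B m
    have a2 := sum_idx (win_chain H B m) fun i => (T i + T (i + 1)) - (T (i + 1) + T (i + 1 + 1))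
    rw [sum_range_sub' (fun i => T i + T (i + 1))] at a2
    have a3 : ∑ r ∈ qual lo hi B m, wt lo hi w (insert r B) *
        (T (win lo hi (insert r B) m).card + T ((win lo hi (insert r B) m).card + 1)) =
        wt lo hi w B * (w / 2 * ∑ r ∈ qual lo hi B m, ((men lo hi r).card : ℝ) *
        (T (win lo hi (insert r B) m).card + T ((win lo hi (insert r B) m).card + 1))) := by
      rw [mul_sum, mul_sum]
      refine sum_congr rfl fun r hr => ?_
      rw [wt, prod_insert (not_mem_of_free (mem_filter.1 hr).1), wt]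
      ring
    have a4 : ∑ s ∈ win lo hi B m,
        cost w T (idx (win lo hi B m) s) (idx (win (inv lo) (inv hi) B (hi s m)) s) =
        w / 2 * ∑ s ∈ win lo hi B m, (2 * (T 0 + T 1) +
          (idx (win (inv lo) (inv hi) B (hi s m)) s : ℝ) * (2 * T (idx (win lo hi B m) s))) +
        ∑ s ∈ win lo hi B m, ((T (idx (win lo hi B m) s) + T (idx (win lo hi B m) s + 1)) -
          (T (idx (win lo hi B m) s + 1) + T (idx (win lo hi B m) s + 1 + 1))) := by
      rw [mul_sum, ← sum_add_distrib]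
      refine sum_congr rfl fun s _ => ?_
      rw [cost]
      ring
    rw [a3, a4, a2, ← mul_sub, ← mul_add]
    refine mul_le_mul_of_nonneg_left ?_ (wt_nonneg hw B)
    have := mul_le_mul_of_nonneg_left a1 (show 0 ≤ w / 2 by positivity)
    rw [zero_add]
    linarith
  refine (sum_le_sum h2).trans ?_
  rw [sum_add_distrib, sum_sub_distrib, sum_mul]
  linarith

theorem sum_win (B : Finset P) (g : P → Fin n → ℝ) :
    ∑ m, ∑ s ∈ win lo hi B m, g s m = ∑ s ∈ free B, ∑ m ∈ men lo hi s, g s m := by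
  simp only [win, sum_filter]
  rw [sum_comm]
  refine sum_congr rfl fun s _ => ?_
  rw [← sum_filter, filter_mem_eq_inter, univ_inter]

theorem cost_add {w : ℝ} (hw : 0 ≤ w) {T : ℕ → ℝ} (hT : Antitone T)
    (hS : ∀ a : ℕ, 1 + T (a + 2) ≤ (1 + w * a) * T a) (i d : ℕ) :
    2 * (1 + w * (T 0 + T 1)) ≤ cost w T i d + cost w T d i := by
  have a1 := hS i
  have a2 := hS d
  have a3 : 0 ≤ ((d : ℝ) - i) * (T i - T d) := by
    rcases le_total i d with h | h
    · exact mul_nonneg (sub_nonneg.2 (by exact_mod_cast h)) (sub_nonneg.2 (hT h))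
    · exact mul_nonneg_of_nonpos_of_nonpos (sub_nonpos.2 (by exact_mod_cast h))
        (sub_nonpos.2 (hT h))
  have a4 := mul_nonneg hw a3
  unfold cost
  nlinarith

theorem remove_one {w : ℝ} (hw : 0 ≤ w) :
    ∑ A ∈ ac P, wt lo hi w A * A.card ≤
      ∑ B ∈ ac P, wt lo hi w B * (w / 2 * ∑ r ∈ free B, ((men lo hi r).card : ℝ)) := by
  have e1 : ∑ A ∈ ac P, wt lo hi w A * A.card =
      ∑ r, ∑ A ∈ (ac P).filter (fun A => r ∈ A), wt lo hi w A := by
    simp only [sum_filter]
    rw [sum_comm]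
    refine sum_congr rfl fun A _ => ?_
    rw [← sum_filter, filter_mem_eq_inter, univ_inter, sum_const, nsmul_eq_mul, mul_comm]
  have e2 : ∑ B ∈ ac P, wt lo hi w B * (w / 2 * ∑ r ∈ free B, ((men lo hi r).card : ℝ)) =
      ∑ r, ∑ B ∈ (ac P).filter (fun B => r ∈ free B),
        wt lo hi w B * (w * (men lo hi r).card / 2) := by
    simp only [sum_filter]
    rw [sum_comm]
    refine sum_congr rfl fun B _ => ?_
    rw [← sum_filter, filter_mem_eq_inter, univ_inter, mul_sum, mul_sum]
    exact sum_congr rfl fun r _ => by ring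
  rw [e1, e2]
  refine sum_le_sum fun r _ => ?_
  have hinj : Set.InjOn (fun A : Finset P => A.erase r)
      ((ac P).filter (fun A => r ∈ A) : Finset _) := by
    intro A hA A' hA' e
    have e' : A.erase r = A'.erase r := e
    rw [← insert_erase (mem_filter.1 (mem_coe.1 hA)).2, e',
      insert_erase (mem_filter.1 (mem_coe.1 hA')).2]
  have e3 : ∑ A ∈ (ac P).filter (fun A => r ∈ A), wt lo hi w A =
      ∑ A ∈ (ac P).filter (fun A => r ∈ A),
        wt lo hi w (A.erase r) * (w * (men lo hi r).card / 2) :=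
    sum_congr rfl fun A hA => (prod_erase_mul _ _ (mem_filter.1 hA).2).symm
  rw [e3, ← sum_image (f := fun B => wt lo hi w B * (w * (men lo hi r).card / 2)) hinj]
  refine sum_le_sum_of_subset_of_nonneg (fun B hB => ?_)
    fun B _ _ => mul_nonneg (wt_nonneg hw B) (by positivity)
  obtain ⟨A, hA, rfl⟩ := mem_image.1 hB
  obtain ⟨a1, a2⟩ := mem_filter.1 hA
  have a3 := (mem_filter.1 a1).2
  refine mem_filter.2 ⟨mem_filter.2 ⟨mem_univ _, fun a ha b hb =>
    a3 a (mem_of_mem_erase ha) b (mem_of_mem_erase hb)⟩, mem_filter.2 ⟨mem_univ _, fun b hb => ?_⟩⟩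
  obtain ⟨b1, b2⟩ := mem_erase.1 hb
  exact ⟨fun h => b1 (a3 b b2 r a2 h), fun h => b1 (a3 r a2 b b2 h).symm⟩

/-- the occupancy bound -/
theorem occ (H : Side lo hi) (H' : Side (inv lo) (inv hi)) {w : ℝ} (hw : 0 ≤ w) {T : ℕ → ℝ}
    (hT : Antitone T) (h0 : ∀ a, 0 ≤ T a) (hS : ∀ a : ℕ, 1 + T (a + 2) ≤ (1 + w * a) * T a) :
    (∑ A ∈ ac P, wt lo hi w A * A.card) * (2 * (1 + w * (T 0 + T 1))) ≤
      n * (w * (T 0 + T 1)) * ∑ A ∈ ac P, wt lo hi w A := by
  have h1 := sum_le_sum fun m (_ : m ∈ univ) => side H hw hT h0 m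
  have h2 := sum_le_sum fun m (_ : m ∈ univ) => side H' hw hT h0 m
  simp only [wt_inv] at h2
  rw [sum_comm, sum_const, card_univ, Fintype.card_fin, nsmul_eq_mul] at h1 h2
  have h3 : ∀ B ∈ ac P, wt lo hi w B * ((∑ r ∈ free B, ((men lo hi r).card : ℝ)) *
      (2 * (1 + w * (T 0 + T 1)))) ≤ ∑ m, wt lo hi w B * ∑ s ∈ win lo hi B m,
        cost w T (idx (win lo hi B m) s) (idx (win (inv lo) (inv hi) B (hi s m)) s) +
      ∑ m, wt lo hi w B * ∑ s ∈ win (inv lo) (inv hi) B m,
        cost w T (idx (win (inv lo) (inv hi) B m) s)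
          (idx (win (inv (inv lo)) (inv (inv hi)) B (inv hi s m)) s) := by
    intro B _
    rw [← mul_sum, ← mul_sum, ← mul_add, sum_win, sum_win, ← sum_add_distrib, sum_mul]
    refine mul_le_mul_of_nonneg_left (sum_le_sum fun s _ => ?_) (wt_nonneg hw B)
    rw [men_inv, sum_map, ← sum_add_distrib, ← nsmul_eq_mul]
    refine card_nsmul_le_sum _ _ _ fun m _ => ?_
    have e : inv hi s ((hi s).toEmbedding m) = m := (hi s).symm_apply_apply m
    rw [e]
    exact cost_add hw hT hS _ _
  have h4 := sum_le_sum h3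
  rw [sum_add_distrib] at h4
  have h5 := remove_one (lo := lo) (hi := hi) hw
  have hY : 0 ≤ 2 * (1 + w * (T 0 + T 1)) := by
    have := mul_nonneg hw (add_nonneg (h0 0) (h0 1))
    linarith
  have h6 : (∑ B ∈ ac P, wt lo hi w B * (w / 2 * ∑ r ∈ free B, ((men lo hi r).card : ℝ))) *
      (2 * (1 + w * (T 0 + T 1))) = w / 2 * ∑ B ∈ ac P, wt lo hi w B *
        ((∑ r ∈ free B, ((men lo hi r).card : ℝ)) * (2 * (1 + w * (T 0 + T 1)))) := by
    rw [sum_mul, mul_sum]
    exact sum_congr rfl fun B _ => by ring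
  refine (mul_le_mul_of_nonneg_right h5 hY).trans ?_
  rw [h6]
  have h7 := mul_le_mul_of_nonneg_left (h4.trans (add_le_add h1 h2))
    (show 0 ≤ w / 2 by positivity)
  refine h7.trans_eq ?_
  ring

end

end Pool.Agent.MP_081e4c_co.OC
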